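import Mathlib

open Complex Set Filter Topology Metric
open scoped ComplexConjugate

namespace Pool.Agent.H.MP_e1108f_an

lemma den {c z : ℂ} (hc : ‖c‖ < 1) (h : ‖z‖ < 1) : 1 - conj c * z ≠ 0 := fun e => by
  have : ‖conj c * z‖ < 1 := by
    rw [norm_mul, RCLike.norm_conj]; exact mul_lt_one_of_nonneg_of_lt_one_left (norm_nonneg _) hc h.le
  rw [← sub_eq_zero.1 e] at this; simp at this

noncomputable def mb (c z : ℂ) : ℂ := (z - c) / (1 - conj c * z)

lemma mob {c z : ℂ} (hc : ‖c‖ < 1) (h : ‖z‖ < 1) : ‖mb c z‖ < 1 := by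
  rw [mb, norm_div, div_lt_one (norm_pos_iff.2 (den hc h)), ← sq_lt_sq₀ (norm_nonneg _) (norm_nonneg _),
    Complex.sq_norm, Complex.sq_norm]
  have h1 : normSq c < 1 := by rw [← Complex.sq_norm]; nlinarith [norm_nonneg c]
  have h2 : normSq z < 1 := by rw [← Complex.sq_norm]; nlinarith [norm_nonneg z]
  have := mul_pos (sub_pos.2 h1) (sub_pos.2 h2)
  simp only [normSq_apply, sub_re, sub_im, mul_re, mul_im, conj_re, conj_im, one_re, one_im] at *
  nlinarith
lemma md {c : ℂ} (hc : ‖c‖ < 1) : DifferentiableOn ℂ (mb c) (ball 0 1) :=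
  DifferentiableOn.div (by fun_prop) (by fun_prop) fun _ hz => den hc (by simpa using hz)
lemma mm {c : ℂ} (hc : ‖c‖ < 1) : MapsTo (mb c) (ball 0 1) (ball 0 1) :=
  fun _ hz => mem_ball_zero_iff.2 (mob hc (by simpa using hz))
lemma mb_ne {c z : ℂ} (hc : ‖c‖ < 1) (h : ‖z‖ < 1) (e : z ≠ c) : mb c z ≠ 0 := div_ne_zero (sub_ne_zero.2 e) (den hc h)

def Bl (F : ℂ → ℂ) : Prop := DifferentiableOn ℂ F (ball 0 1) ∧ ∀ z ∈ ball (0 : ℂ) 1, ‖F z‖ ≤ 1

lemma div1 {F : ℂ → ℂ} (hF : Bl F) {a : ℂ} (a1 : ‖a‖ < 1) (a0 : F a = 0) :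
    ∃ G, Bl G ∧ ∀ z ∈ ball (0 : ℂ) 1, F z = mb a z * G z := by
  have na : ‖-a‖ < 1 := by simpa using a1
  let h : ℂ → ℂ := F ∘ mb (-a)
  have hd : DifferentiableOn ℂ h (ball 0 1) := hF.1.comp (md na) (mm na)
  have h0 : h 0 = 0 := by simp [h, mb, a0]
  refine ⟨dslope h 0 ∘ mb a, ⟨((differentiableOn_dslope (ball_mem_nhds 0 one_pos)).2 hd).comp (md a1) (mm a1),
    fun z hz => ?_⟩, fun z hz => ?_⟩
  · have := norm_dslope_le_div_of_mapsTo_ball (R₂ := 1) hd (fun u hu => by
      rw [h0, mem_closedBall_zero_iff]; exact hF.2 _ (mm na hu)) (mm a1 hz)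
    simpa using this
  · have := sub_smul_dslope h 0 (mb a z)
    rw [sub_zero, h0, sub_zero, smul_eq_mul] at this
    rw [Function.comp, this]
    simp only [h, Function.comp]
    congr 1
    have z1 := mem_ball_zero_iff.1 hz
    have d1 := den a1 z1
    rw [mb, eq_div_iff (den na (mob a1 z1))]
    simp only [map_neg, mb]
    linear_combination (a - z) * mul_inv_cancel₀ d1

variable {ι : Type}

lemma blas1 (a : ι → ℂ) (ha : ∀ i, ‖a i‖ < 1) (inj : Function.Injective a) (T : Finset ι) : ∀ F, Bl F →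
    (∀ i ∈ T, F (a i) = 0) → ∀ z ∈ ball (0 : ℂ) 1, ‖F z‖ ≤ ∏ i ∈ T, ‖mb (a i) z‖ := by
  classical
  induction T using Finset.induction_on with
  | empty => intro F h _; simpa using h.2
  | insert i T hi ih =>
    intro F hF h0 z hz
    obtain ⟨G, hG, e⟩ := div1 hF (ha i) (h0 i (by simp))
    rw [Finset.prod_insert hi, e z hz, norm_mul]
    refine mul_le_mul_of_nonneg_left (ih G hG (fun j hj => ?_) z hz) (norm_nonneg _)
    have := e _ (mem_ball_zero_iff.2 (ha j))
    rw [h0 j (by simp [hj])] at this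
    exact (mul_eq_zero.1 this.symm).resolve_left (mb_ne (ha i) (ha j) fun e => hi (inj e ▸ hj))

lemma blas2 (a : ι → ℂ) (ha : ∀ i, ‖a i‖ < 1) (C : ℂ → ℝ) (hC : ContinuousOn C (ball 0 1)) (T : Finset ι) : ∀ F, Bl F →
    (∀ z ∈ ball (0 : ℂ) 1, ‖F z‖ ≤ C z * ∏ i ∈ T, ‖mb (a i) z‖) →
    ∀ z ∈ ball (0 : ℂ) 1, ‖F z‖ ≤ ∏ i ∈ T, ‖mb (a i) z‖ := by
  classical
  induction T using Finset.induction_on with
  | empty => intro F h _; simpa using h.2
  | insert i T hi ih =>
    intro F hF h0 z hz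
    have m := mem_ball_zero_iff.2 (ha i)
    simp only [Finset.prod_insert hi] at h0 ⊢
    obtain ⟨G, hG, e⟩ := div1 hF (ha i) (by simpa [mb] using h0 _ m)
    rw [e z hz, norm_mul]
    refine mul_le_mul_of_nonneg_left (ih G hG (fun w hw => ?_) z hz) (norm_nonneg _)
    have k : ∀ w ∈ ball (0 : ℂ) 1, w ≠ a i → ‖G w‖ ≤ C w * ∏ j ∈ T, ‖mb (a j) w‖ := fun w hw hne => by
      have := h0 w hw
      rw [e w hw, norm_mul, mul_left_comm] at this
      exact le_of_mul_le_mul_left this (norm_pos_iff.2 (mb_ne (ha i) (mem_ball_zero_iff.1 hw) hne))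
    by_cases hne : w = a i
    · have n := isOpen_ball.mem_nhds hw
      refine le_of_tendsto_of_tendsto (b := 𝓝[≠] w)
        ((hG.1.continuousOn.continuousAt n).norm.tendsto.mono_left nhdsWithin_le_nhds)
        (((hC.continuousAt n).mul (f := C) (g := fun w => ∏ j ∈ T, ‖mb (a j) w‖)
          ((continuousOn_finsetProd T fun j _ =>
          (md (ha j)).continuousOn.norm).continuousAt n)).tendsto.mono_left nhdsWithin_le_nhds) ?_
      filter_upwards [self_mem_nhdsWithin, mem_nhdsWithin_of_mem_nhds n] with v v1 v2 using k v v2 (hne ▸ v1)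
    · exact k w hw hne

noncomputable def bf (a z : ℂ) : ℂ := ‖a‖ / a * ((a - z) / (1 - conj a * z))

lemma bf_norm {a : ℂ} (h : a ≠ 0) (z : ℂ) : ‖bf a z‖ = ‖mb a z‖ := by
  rw [bf, mb, norm_mul, norm_div, norm_real, norm_norm, div_self (norm_ne_zero_iff.2 h), one_mul, norm_div, norm_div,
    norm_sub_rev]

lemma bf_sub {a z : ℂ} {r : ℝ} (h : a ≠ 0) (a1 : ‖a‖ < 1) (hz : ‖z‖ ≤ r) (r1 : r < 1) :
    ‖bf a z - 1‖ ≤ 2 / (1 - r) * (1 - ‖a‖) := by
  have d := den a1 (hz.trans_lt r1)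
  have e : bf a z - 1 = (‖a‖ - 1 : ℝ) * (1 + ‖a‖ / a * z) / (1 - conj a * z) := by
    have := mul_conj' a
    rw [bf, ← mul_div_assoc, div_sub_one d]; congr 1; push_cast; field_simp
    linear_combination z * this
  have h1 : ‖1 + ‖a‖ / a * z‖ ≤ 2 := by
    refine (norm_add_le _ _).trans ?_
    rw [norm_mul, norm_div, norm_real, norm_norm, div_self (norm_ne_zero_iff.2 h), norm_one]; linarith
  have h2 : 1 - r ≤ ‖1 - conj a * z‖ := by
    have := norm_sub_norm_le 1 (conj a * z)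
    rw [norm_one, norm_mul, RCLike.norm_conj] at this
    nlinarith [norm_nonneg a, norm_nonneg z]
  rw [e, norm_div, norm_mul, norm_real, Real.norm_eq_abs, abs_of_nonpos (by linarith), neg_sub]
  calc _ ≤ (1 - ‖a‖) * 2 / (1 - r) := by gcongr
    _ = _ := by ring

structure Seq (a : ι → ℂ) : Prop where
  ne : ∀ i, a i ≠ 0
  lt : ∀ i, ‖a i‖ < 1
  sum : Summable fun i => 1 - ‖a i‖

noncomputable def Bp (a : ι → ℂ) (z : ℂ) : ℂ := ∏' i, bf (a i) z

variable {a : ι → ℂ}

lemma Seq.summ (h : Seq a) {z : ℂ} (hz : z ∈ ball (0 : ℂ) 1) : Summable fun i => ‖bf (a i) z - 1‖ :=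
  (h.sum.mul_left _).of_nonneg_of_le (fun _ => norm_nonneg _) fun i =>
    bf_sub (h.ne i) (h.lt i) le_rfl (mem_ball_zero_iff.1 hz)
lemma Seq.mult (h : Seq a) {z : ℂ} (hz : z ∈ ball (0 : ℂ) 1) : Multipliable fun i => bf (a i) z := by
  simpa using multipliable_one_add_of_summable (h.summ hz)
lemma Seq.lim (h : Seq a) {z : ℂ} (hz : z ∈ ball (0 : ℂ) 1) :
    Tendsto (fun T : Finset ι => ∏ i ∈ T, ‖mb (a i) z‖) atTop (𝓝 ‖Bp a z‖) := by
  refine (Tendsto.norm (h.mult hz).hasProd).congr fun T => ?_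
  simp only [norm_prod, bf_norm (h.ne _)]
lemma Seq.le (h : Seq a) {z : ℂ} (hz : z ∈ ball (0 : ℂ) 1) (T : Finset ι) : ‖Bp a z‖ ≤ ∏ i ∈ T, ‖mb (a i) z‖ :=
  le_of_tendsto (h.lim hz) ((eventually_ge_atTop T).mono fun _ hT => by
    classical
    exact Finset.prod_le_prod_of_subset_of_le_one hT (fun _ _ => norm_nonneg _) fun i _ _ =>
      (mob (h.lt i) (mem_ball_zero_iff.1 hz)).le)
lemma Seq.ne_zero (h : Seq a) {z : ℂ} (hz : z ∈ ball (0 : ℂ) 1) (hn : ∀ i, z ≠ a i) : Bp a z ≠ 0 := by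
  have := tprod_one_add_ne_zero_of_summable (f := fun i => bf (a i) z - 1) (fun i => by
    rw [add_sub_cancel, ← norm_ne_zero_iff, bf_norm (h.ne i), norm_ne_zero_iff]
    exact mb_ne (h.lt i) (mem_ball_zero_iff.1 hz) (hn i)) (h.summ hz)
  simpa [Bp] using this
lemma bf_d {c : ℂ} (hc : ‖c‖ < 1) : DifferentiableOn ℂ (bf c) (ball 0 1) :=
  (DifferentiableOn.div (by fun_prop) (by fun_prop) fun _ hz => den hc (by simpa using hz)).const_mul _
lemma Seq.bl (h : Seq a) : Bl (Bp a) := by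
  refine ⟨fun z hz => ?_, fun z hz => by simpa using h.le hz ∅⟩
  obtain ⟨r, r0, r1⟩ := exists_between (mem_ball_zero_iff.1 hz)
  have sub : ball (0 : ℂ) r ⊆ ball 0 1 := ball_subset_ball r1.le
  have := (h.sum.mul_left (2 / (1 - r))).hasProdLocallyUniformlyOn_one_add (f := fun i z => bf (a i) z - 1)
    (K := ball 0 r) isOpen_ball (Eventually.of_forall fun i w hw =>
      bf_sub (h.ne i) (h.lt i) (mem_ball_zero_iff.1 hw).le r1)
    fun i => ((bf_d (h.lt i)).continuousOn.mono sub).sub continuousOn_const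
  simp only [add_sub_cancel] at this
  refine ((TendstoLocallyUniformlyOn.differentiableOn this (Eventually.of_forall fun T => ?_)
    isOpen_ball).differentiableAt (isOpen_ball.mem_nhds (mem_ball_zero_iff.2 r0))).differentiableWithinAt
  exact DifferentiableOn.fun_finsetProd fun i _ => (bf_d (h.lt i)).mono sub

lemma Seq.simple (h : Seq a) (inj : Function.Injective a) (i : ι) : deriv (Bp a) (a i) ≠ 0 := by
  let s : Set ι := {i}
  have h' : Seq fun j : (sᶜ : Set ι) => a j := ⟨fun j => h.ne j, fun j => h.lt j, h.sum.subtype _⟩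
  have m := mem_ball_zero_iff.2 (h.lt i)
  have n := isOpen_ball.mem_nhds m
  have e : Bp a =ᶠ[𝓝 (a i)] fun z => bf (a i) z * Bp (fun j : (sᶜ : Set ι) => a j) z := by
    filter_upwards [n] with z hz
    rw [Bp, ← Multipliable.tprod_mul_tprod_compl (s := s) (f := fun j => bf (a j) z) Multipliable.of_finite
      (h'.mult hz), tprod_singleton
      (f := fun j => bf (a j) z)]
    rfl
  have d := den (h.lt i) (h.lt i)
  have d1 : HasDerivAt (bf (a i)) (‖a i‖ / a i * (-1 / (1 - conj (a i) * a i))) (a i) := by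
    refine ((((hasDerivAt_id (a i)).const_sub (a i)).div (((hasDerivAt_id (a i)).const_mul (conj (a i))).const_sub 1)
      d).const_mul _).congr_deriv ?_
    simp only [id, sub_self, zero_mul, sub_zero]
    rw [sq, mul_div_mul_right _ _ d]
  rw [e.deriv_eq, (d1.fun_mul (h'.bl.1.differentiableAt n).hasDerivAt).deriv]
  simp only [bf, sub_self, zero_div, mul_zero, zero_mul, add_zero]
  refine mul_ne_zero (mul_ne_zero (div_ne_zero (by simpa using h.ne i) (h.ne i)) (div_ne_zero (by simp) d))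
    (h'.ne_zero m fun j e => j.2 (inj e).symm)

lemma Seq.quot (h : Seq a) (inj : Function.Injective a) {F : ℂ → ℂ} (hF : Bl F) (h0 : ∀ i, F (a i) = 0) :
    ∃ G, Bl G ∧ ∀ z ∈ ball (0 : ℂ) 1, F z = Bp a z * G z := by
  have le : ∀ z ∈ ball (0 : ℂ) 1, ‖F z‖ ≤ ‖Bp a z‖ := fun z hz =>
    ge_of_tendsto' (h.lim hz) fun T => blas1 a h.lt inj T F hF (fun i _ => h0 i) z hz
  have hz : ∀ z ∈ ball (0 : ℂ) 1, Bp a z = 0 → F z = 0 ∧ deriv (Bp a) z ≠ 0 := fun z hz e => by
    obtain ⟨i, rfl⟩ : ∃ i, z = a i := by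
      by_contra c
      exact h.ne_zero hz (fun i e => c ⟨i, e⟩) e
    exact ⟨h0 i, h.simple inj i⟩
  have h1 := hF.1
  have h2 := h.bl.1
  generalize Bp a = Q at *
  let G := fun w => if Q w = 0 then deriv F w / deriv Q w else F w / Q w
  have b : ∀ z ∈ ball (0 : ℂ) 1, Q z ≠ 0 → ‖G z‖ ≤ 1 := fun z hz e => by
    simp only [G, if_neg e, norm_div]
    exact div_le_one_of_le₀ (le z hz) (norm_nonneg _)
  have hd : ∀ c ∈ ball (0 : ℂ) 1, DifferentiableAt ℂ G c := fun c hc => by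
    have hn := isOpen_ball.mem_nhds hc
    by_cases e : Q c = 0
    · have d1 := ((differentiableOn_dslope hn).2 h1).differentiableAt hn
      have d2 := ((differentiableOn_dslope hn).2 h2).differentiableAt hn
      have n0 : dslope Q c c ≠ 0 := by rw [dslope_same]; exact (hz c hc e).2
      refine (d1.div d2 n0).congr_of_eventuallyEq ?_
      filter_upwards [d2.continuousAt.eventually_ne n0] with w hw
      by_cases f : w = c
      · subst f; simp [G, e]
      · have e1 := sub_smul_dslope F c w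
        have e2 := sub_smul_dslope Q c w
        rw [(hz c hc e).1, sub_zero, smul_eq_mul] at e1
        rw [e, sub_zero, smul_eq_mul] at e2
        have f' := sub_ne_zero.2 f
        simp only [G]
        rw [if_neg (by rw [← e2]; exact mul_ne_zero f' hw), ← e1, ← e2, Pi.div_apply, mul_div_mul_left _ _ f']
    · have d2 := h2.differentiableAt hn
      refine ((h1.differentiableAt hn).div d2 e).congr_of_eventuallyEq ?_
      filter_upwards [d2.continuousAt.eventually_ne e] with w hw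
      simp [G, hw]
  refine ⟨G, ⟨fun c hc => (hd c hc).differentiableWithinAt, fun c hc => ?_⟩, fun z hz' => ?_⟩
  · by_cases e : Q c = 0
    · have hn := isOpen_ball.mem_nhds hc
      refine le_of_tendsto (x := 𝓝[≠] c) ((hd c hc).continuousAt.norm.tendsto.mono_left nhdsWithin_le_nhds) ?_
      filter_upwards [(h2.differentiableAt hn).hasDerivAt.eventually_ne (hz c hc e).2, mem_nhdsWithin_of_mem_nhds hn]
        with v v1 v2 using b v v2 v1
    · exact b c hc e
  · by_cases e : Q z = 0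
    · rw [e, (hz z hz' e).1, zero_mul]
    · simp only [G, if_neg e]; field_simp

end Pool.Agent.H.MP_e1108f_an
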