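import Pool.Agent.H.MP_e1108f_an.A
import Pool.Agent.H.MP_e1108f_an.C

open Complex Set Filter Topology Metric
open scoped Real ComplexConjugate

namespace Pool.Agent.H.MP_e1108f_an

open Pool.Agent.H.MP_c109b8_an (U U_open)

noncomputable def cay (w : ℂ) : ℂ := (w - I) / (w + I)

lemma n0 {w : ℂ} (hw : 0 < w.im) : w + I ≠ 0 := fun e => by
  have := congrArg im e
  simp at this; linarith
lemma cay_sq {w : ℂ} (hw : 0 < w.im) : 1 - ‖cay w‖ ^ 2 = 4 * w.im / (w.re ^ 2 + (w.im + 1) ^ 2) := by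
  have : 0 < w.re ^ 2 + (w.im + 1) ^ 2 := by positivity
  rw [cay, norm_div, div_pow, sq_n, sq_n]
  simp only [sub_re, I_re, sub_zero, sub_im, I_im, add_re, add_zero, add_im]
  field_simp; ring
lemma cay_lt {w : ℂ} (hw : 0 < w.im) : ‖cay w‖ < 1 := by
  have : 0 < 4 * w.im / (w.re ^ 2 + (w.im + 1) ^ 2) := by positivity
  rw [← cay_sq hw] at this
  nlinarith [norm_nonneg (cay w)]
lemma cay_le {w : ℂ} (hw : 0 < w.im) : 1 - ‖cay w‖ ≤ 4 * w.im / (w.re ^ 2 + 1) := by
  have h1 := cay_lt hw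
  calc _ ≤ 1 - ‖cay w‖ ^ 2 := by nlinarith [norm_nonneg (cay w)]
    _ ≤ _ := by rw [cay_sq hw]; gcongr; nlinarith
lemma mb_cay {v w : ℂ} (hv : 0 < v.im) (hw : 0 < w.im) :
    ‖mb (cay v) (cay w)‖ ^ 2 = ((w.re - v.re) ^ 2 + (w.im - v.im) ^ 2) / ((w.re - v.re) ^ 2 + (w.im + v.im) ^ 2) := by
  have a := n0 hv
  have b := n0 hw
  have c : conj v - I ≠ 0 := by simpa [sub_eq_add_neg] using (map_ne_zero (starRingEnd ℂ)).2 a
  have d : w - conj v ≠ 0 := fun e => by
    have := congrArg im e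
    simp at this; linarith
  have e : mb (cay v) (cay w) = -(w - v) / (w - conj v) * (conj (v + I) / (v + I)) := by
    rw [mb, div_eq_iff (den (cay_lt hv) (cay_lt hw))]
    simp only [cay, map_div₀, map_sub, map_add, conj_I, sub_neg_eq_add, ← sub_eq_add_neg]
    field_simp; ring
  rw [e, norm_mul, norm_div (conj _), RCLike.norm_conj, div_self (norm_ne_zero_iff.2 a), mul_one, norm_div, norm_neg,
    div_pow, sq_n, sq_n]
  simp

noncomputable def f (z : ℂ) : ℂ := exp (-((1 + z) / (1 - z)))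
lemma ne1 {z : ℂ} (hz : ‖z‖ < 1) : 1 - z ≠ 0 := fun e => by rw [← sub_eq_zero.1 e] at hz; simp at hz
lemma f_d : DifferentiableOn ℂ f (ball 0 1) :=
  (DifferentiableOn.div (by fun_prop) (by fun_prop) fun z hz => ne1 (by simpa using hz)).neg.cexp
lemma f_cay {w : ℂ} (hw : 0 < w.im) : f (cay w) = S w := by
  have := n0 hw
  rw [f, S, cay, one_add_div this, one_sub_div this, div_div_div_cancel_right₀ this]
  congr 1
  rw [neg_eq_iff_eq_neg, div_eq_iff (by simp)]
  linear_combination (2 * w) * I_mul_I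
lemma cay_surj {z : ℂ} (hz : z ∈ ball (0 : ℂ) 1) : ∃ w, 0 < w.im ∧ cay w = z := by
  have z1 := mem_ball_zero_iff.1 hz
  have n1 := ne1 z1
  have hw : 0 < (I * ((1 + z) / (1 - z))).im := by
    have h1 : ‖z‖ ^ 2 < 1 := by nlinarith [norm_nonneg z]
    have h2 := normSq_pos.2 n1
    rw [sq_n] at h1
    simp only [mul_im, I_re, zero_mul, I_im, one_mul, zero_add, div_re, ← add_div]
    refine div_pos ?_ h2
    simp only [add_re, one_re, sub_re, add_im, one_im, sub_im]; nlinarith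
  refine ⟨_, hw, ?_⟩
  rw [cay, div_eq_iff (n0 hw)]; field_simp; ring
lemma f_bl : Bl f := ⟨f_d, fun z hz => by
  obtain ⟨w, hw, rfl⟩ := cay_surj hz
  rw [f_cay hw]; exact S_le hw.le⟩

abbrev JJ := Σ k : ℤ, Σ j : Fin (Nat.sqrt k.natAbs), Fin (2 ^ (j + 1 : ℕ))
abbrev N := (Unit ⊕ ℤ) ⊕ JJ

noncomputable def X : N → ℝ
  | .inl (.inl _) => 0
  | .inl (.inr k) => π / 4 + k * π
  | .inr ⟨k, j, l⟩ => π / 4 + k * π + (l : ℕ) / 2 ^ (j + 1 : ℕ)
def E : N → ℤ
  | .inl (.inl _) => 0
  | .inl (.inr _) => 1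
  | .inr ⟨_, j, _⟩ => -(j + 1 : ℕ)
noncomputable def pos (n : N) : ℂ := X n + (2 ^ E n : ℝ) * I
lemma pos_re (n : N) : (pos n).re = X n := by simp [pos, -ofReal_zpow]
lemma pos_im (n : N) : (pos n).im = 2 ^ E n := by simp [pos, -ofReal_zpow]
lemma pos_pos (n : N) : 0 < (pos n).im := by rw [pos_im]; positivity

lemma frac (j : ℕ) (l : Fin (2 ^ j)) : 0 ≤ ((l : ℕ) : ℝ) / 2 ^ j ∧ ((l : ℕ) : ℝ) / 2 ^ j < 1 :=
  ⟨by positivity, (div_lt_one (by positivity)).2 (by exact_mod_cast l.2)⟩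

lemma kk {k k' : ℤ} (h : k ≠ k') : 3 ≤ |(k - k' : ℝ) * π| := by
  have : (1 : ℝ) ≤ |(k - k' : ℝ)| := by exact_mod_cast Int.one_le_abs (sub_ne_zero.2 h)
  rw [abs_mul, abs_of_pos Real.pi_pos]; nlinarith [Real.pi_gt_three]

lemma same {n n' : N} (h : n ≠ n') (e : E n = E n') : (2 : ℝ) ^ E n ≤ |X n - X n'| := by
  rcases n with (_ | k) | ⟨k, j, l⟩ <;> rcases n' with (_ | k') | ⟨k', j', l'⟩ <;> simp only [E, X] at e ⊢ <;>
    try omega
  · exact absurd rfl h
  · have := kk (k := k) (k' := k') (by rintro rfl; exact h rfl)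
    rw [show π / 4 + k * π - (π / 4 + k' * π) = (k - k') * π by ring]
    norm_num at this ⊢; linarith
  · have p : (0 : ℝ) < 2 ^ (j + 1 : ℕ) := by positivity
    rw [zpow_neg, zpow_natCast]
    by_cases hk : k = k'
    · subst hk
      obtain rfl : j = j' := Fin.ext (by omega)
      have : (l : ℤ) ≠ l' := fun e => h (by rw [Fin.ext (a := l) (b := l') (by omega)])
      have h1 : (1 : ℝ) ≤ |((l : ℕ) - (l' : ℕ) : ℝ)| := by exact_mod_cast Int.one_le_abs (sub_ne_zero.2 this)
      rw [add_sub_add_left_eq_sub, ← sub_div, abs_div, abs_of_pos p, inv_eq_one_div]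
      gcongr
    · have := kk hk
      have a := frac _ l
      have b := frac _ l'
      have c : ((2 : ℝ) ^ (j + 1 : ℕ))⁻¹ ≤ 1 := inv_le_one_of_one_le₀ (one_le_pow₀ (by norm_num))
      rw [le_abs] at this ⊢
      rcases this with t | t
      · left; linarith [a.1, b.2]
      · right; linarith [a.2, b.1]

lemma sep {n n' : N} (h : n ≠ n') : 1 / 3 ≤ ‖mb (cay (pos n)) (cay (pos n'))‖ := by
  have p := pos_pos n
  have p' := pos_pos n'
  rw [← sq_le_sq₀ (by norm_num) (norm_nonneg _), mb_cay p p', le_div_iff₀ (by positivity)]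
  rw [pos_im] at p p'
  simp only [pos_im, pos_re]
  have two : ∀ {a b : ℤ}, a < b → 2 * (2 : ℝ) ^ a ≤ 2 ^ b := fun {a b} h => by
    rw [mul_comm, ← zpow_add_one₀ two_ne_zero]; exact zpow_le_zpow_right₀ (by norm_num) h
  rcases lt_trichotomy (E n) (E n') with t | t | t
  · nlinarith [two t, sq_nonneg (X n' - X n)]
  · have := pow_le_pow_left₀ p.le (same h t) 2
    rw [sq_abs] at this
    rw [← t]; nlinarith
  · nlinarith [two t, sq_nonneg (X n' - X n)]

lemma inj : Function.Injective fun n => cay (pos n) := fun n n' e => by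
  by_contra h
  have := sep h
  simp only at e
  rw [e] at this; norm_num [mb] at this

lemma X_low (k : ℤ) {t : ℝ} (t0 : 0 ≤ t) (t1 : t < 1) : (k : ℝ) ^ 2 ≤ (π / 4 + k * π + t) ^ 2 := by
  have := Real.pi_gt_three
  have := Real.pi_le_four
  rw [sq_le_sq]
  rcases le_or_gt 0 k with h | h
  · have : (0 : ℝ) ≤ k := by exact_mod_cast h
    rw [abs_of_nonneg this]; exact le_abs.2 (Or.inl (by nlinarith))
  · have : (k : ℝ) ≤ -1 := by exact_mod_cast Int.le_sub_one_of_lt h
    rw [abs_of_nonpos (by linarith)]; exact le_abs.2 (Or.inr (by nlinarith))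

lemma sumk : Summable fun k : ℤ => (Nat.sqrt k.natAbs + 1 : ℝ) / (k ^ 2 + 1) := by
  refine ((Real.summable_abs_int_rpow (b := 3 / 2) (by norm_num)).mul_left 2).of_norm_bounded_eventually ?_
  filter_upwards [(finite_singleton (0 : ℤ)).compl_mem_cofinite] with k hk
  have k1 : (1 : ℝ) ≤ |(k : ℝ)| := by exact_mod_cast Int.one_le_abs hk
  have h1 : (Nat.sqrt k.natAbs : ℝ) ≤ √|(k : ℝ)| := by
    have := Real.nat_sqrt_le_real_sqrt (a := k.natAbs)
    rwa [Nat.cast_natAbs, Int.cast_abs] at this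
  have h2 := Real.one_le_sqrt.2 k1
  rw [Real.norm_of_nonneg (by positivity), show -(3 / 2 : ℝ) = 1 / 2 - 2 by norm_num, Real.rpow_sub (by linarith),
    ← Real.sqrt_eq_rpow, Real.rpow_two, sq_abs, ← mul_div_assoc]
  have : (0 : ℝ) < k ^ 2 := by rw [← sq_abs]; positivity
  gcongr <;> linarith

lemma summ : Summable fun n : N => 1 - ‖cay (pos n)‖ := by
  have nn : ∀ n, 0 ≤ 1 - ‖cay (pos n)‖ := fun n => sub_nonneg.2 (cay_lt (pos_pos n)).le
  refine Summable.sum _ (Summable.sum _ Summable.of_finite ?_) ?_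
  · refine (sumk.mul_left 8).of_nonneg_of_le (fun k => nn _) fun k => (cay_le (pos_pos _)).trans ?_
    have := X_low k le_rfl one_pos
    rw [pos_re, pos_im, ← mul_div_assoc]
    simp only [X, E, add_zero] at this ⊢
    exact div_le_div₀ (by positivity) (by linarith [Nat.cast_nonneg (α := ℝ) (Nat.sqrt k.natAbs)]) (by positivity)
      (by linarith)
  · refine (summable_sigma_of_nonneg fun _ => nn _).2 ⟨fun _ => Summable.of_finite, ?_⟩
    refine (sumk.mul_left 4).of_nonneg_of_le (fun k => tsum_nonneg fun _ => nn _) fun k => ?_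
    rw [tsum_fintype, Fintype.sum_sigma]
    calc _ ≤ ∑ j : Fin (Nat.sqrt k.natAbs), ∑ _l : Fin (2 ^ (j + 1 : ℕ)), 4 * (2 ^ (j + 1 : ℕ) : ℝ)⁻¹ / (k ^ 2 + 1) := by
          refine Finset.sum_le_sum fun j _ => Finset.sum_le_sum fun l _ => (cay_le (pos_pos _)).trans ?_
          have := X_low k (frac _ l).1 (frac _ l).2
          rw [pos_re, pos_im]
          simp only [X, E, zpow_neg, zpow_natCast]
          gcongr
      _ = ∑ _j : Fin (Nat.sqrt k.natAbs), 4 / (k ^ 2 + 1 : ℝ) := Finset.sum_congr rfl fun j _ => by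
          simp only [Finset.sum_const, Finset.card_univ, Fintype.card_fin, nsmul_eq_mul]
          push_cast; field_simp
      _ ≤ _ := by
          simp only [Finset.sum_const, Finset.card_univ, Fintype.card_fin, nsmul_eq_mul]
          rw [← mul_div_assoc, ← mul_div_assoc]
          exact div_le_div_of_nonneg_right (by linarith) (by positivity)

noncomputable def a (i : JJ) : ℂ := cay (pos (.inr i))
lemma a_seq : Seq a := ⟨fun i e => by
    have : cay (pos (.inl (.inl ()))) = 0 := by simp [cay, pos, X, E]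
    exact Sum.inr_ne_inl (inj (e.trans this.symm)), fun i => cay_lt (pos_pos _), summ.comp_injective Sum.inr_injective⟩
lemma a_inj : Function.Injective a := inj.comp Sum.inr_injective
lemma B_zero (i : JJ) : Bp a (a i) = 0 := by simpa [mb] using a_seq.le (mem_ball_zero_iff.2 (a_seq.lt i)) {i}

lemma B_small (k : ℤ) : ‖Bp a (cay (pos (.inl (.inr k))))‖ ≤ Real.exp (-(Nat.sqrt k.natAbs / 2)) := by
  refine (a_seq.le (mem_ball_zero_iff.2 (cay_lt (pos_pos _))) (Finset.univ.map (Function.Embedding.sigmaMk k))).trans ?_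
  rw [Finset.prod_map, Fintype.prod_sigma]
  calc _ ≤ ∏ j : Fin (Nat.sqrt k.natAbs), ∏ _l : Fin (2 ^ (j + 1 : ℕ)), Real.exp (-((2 ^ (j + 1 : ℕ) : ℝ)⁻¹ / 2)) := by
        refine Finset.prod_le_prod (fun _ _ => Finset.prod_nonneg fun _ _ => norm_nonneg _) fun j _ =>
          Finset.prod_le_prod (fun _ _ => norm_nonneg _) fun l _ => ?_
        refine le_trans ?_ (Real.add_one_le_exp _)
        have c : ((2 : ℝ) ^ (j + 1 : ℕ))⁻¹ ≤ 1 / 2 := by
          rw [one_div]; exact inv_anti₀ two_pos (le_self_pow₀ (by norm_num) (by omega))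
        have c0 : 0 < ((2 : ℝ) ^ (j + 1 : ℕ))⁻¹ := by positivity
        have b := frac _ l
        rw [← sq_le_sq₀ (norm_nonneg _) (by linarith), Function.Embedding.sigmaMk_apply, a,
          mb_cay (pos_pos _) (pos_pos _), div_le_iff₀ (by have := pos_pos (.inl (.inr k)); have := pos_pos (.inr ⟨k, j, l⟩); positivity)]
        simp only [pos_re, pos_im, X, E, zpow_neg, zpow_natCast, zpow_one, sub_add_cancel_left, even_two, Even.neg_pow]
        generalize ((2 : ℝ) ^ (j + 1 : ℕ))⁻¹ = y at *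
        generalize ((l : ℕ) : ℝ) / 2 ^ (j + 1 : ℕ) = t at *
        have t2 : t ^ 2 ≤ 1 := by nlinarith [b.1, b.2]
        have t3 : t ^ 2 + (2 + y) ^ 2 ≤ 8 := by nlinarith
        nlinarith [mul_le_mul_of_nonneg_left t3 c0.le, mul_nonneg (sq_nonneg y) (add_nonneg (sq_nonneg t) (sq_nonneg (2 + y)))]
    _ = _ := by
        simp only [Finset.prod_const, Finset.card_univ, Fintype.card_fin, ← Real.exp_nat_mul]
        rw [← Real.exp_sum, Finset.sum_congr rfl (g := fun _ => -(1 / 2)) fun j _ => by push_cast; field_simp]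
        simp only [Finset.sum_const, Finset.card_univ, Fintype.card_fin, nsmul_eq_mul]
        congr 1; ring

noncomputable def g (z : ℂ) : ℂ := f z * Bp a z
lemma g_bl : Bl g := ⟨f_d.mul a_seq.bl.1, fun z hz => by
  rw [g, norm_mul]; exact mul_le_one₀ (f_bl.2 z hz) (norm_nonneg _) (a_seq.bl.2 z hz)⟩

lemma g_lim : Tendsto (fun n : N => g (cay (pos n))) cofinite (𝓝 0) := by
  have t1 : Tendsto (fun k : ℤ => Nat.sqrt k.natAbs) cofinite atTop := by
    refine tendsto_atTop.2 fun b => eventually_cofinite.2 ((finite_Icc (-(b * b : ℕ) : ℤ) (b * b : ℕ)).subset fun k hk => ?_)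
    simp only [mem_ofPred_eq, Nat.le_sqrt, not_le] at hk
    rw [mem_Icc]; omega
  have t2 := Real.tendsto_exp_neg_atTop_nhds_zero.comp
    ((tendsto_natCast_atTop_atTop (R := ℝ).comp t1).atTop_div_const two_pos)
  refine Metric.tendsto_nhds.2 fun δ hδ => eventually_cofinite.2 ?_
  have := eventually_cofinite.1 (t2.eventually (gt_mem_nhds hδ))
  refine ((this.image fun k => (.inl (.inr k) : N)).insert (.inl (.inl ()))).subset ?_
  rintro ((_ | k) | i) hn
  · exact Or.inl rfl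
  · refine Or.inr ⟨k, fun h => hn ?_, rfl⟩
    rw [dist_zero_right, g, norm_mul]
    exact lt_of_le_of_lt ((mul_le_of_le_one_left (norm_nonneg _)
      (f_bl.2 _ (mem_ball_zero_iff.2 (cay_lt (pos_pos _))))).trans (B_small k)) h
  · exact absurd (by rw [dist_zero_right, g, show cay (pos (.inr i)) = a i from rfl, B_zero]; simpa) hn

lemma uniq {h : ℂ → ℂ} (hh : Bl h) (hz : ∀ n, h (cay (pos n)) = g (cay (pos n))) : EqOn h g (ball 0 1) := by
  obtain ⟨G, hG, e⟩ := a_seq.quot a_inj hh fun i => by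
    rw [a, hz, g, show cay (pos (.inr i)) = a i from rfl, B_zero, mul_zero]
  have m : ∀ w ∈ U, cay w ∈ ball (0 : ℂ) 1 := fun w hw => mem_ball_zero_iff.2 (cay_lt hw)
  have := core (g := fun w => G (cay w))
    (hG.1.comp (DifferentiableOn.div (by fun_prop) (by fun_prop) fun w hw => n0 hw) m) (fun w hw => hG.2 _ (m w hw))
    fun w hw hQ => by
      obtain ⟨n, rfl⟩ : ∃ n, w = pos (.inl n) := by
        rcases Q_zero hQ with rfl | ⟨k, rfl⟩
        · exact ⟨.inl (), by simp [pos, X, E]⟩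
        · exact ⟨.inr k, by simp [pos, X, E]⟩
      have h1 := hz (.inl n)
      rw [e _ (m _ hw), g, f_cay hw, mul_comm] at h1
      exact mul_right_cancel₀ (a_seq.ne_zero (m _ hw) fun i e => Sum.inl_ne_inr (inj e)) h1
  intro z hz
  obtain ⟨w, hw, rfl⟩ := cay_surj hz
  rw [e _ hz, this w hw, g, f_cay hw, mul_comm]

lemma notB {ι : Type} {b : ι → ℂ} (hb : Seq b) (c : ℂ) (k : ℕ) : ¬∀ z ∈ ball (0 : ℂ) 1, g z = c * (z ^ k * Bp b z) := by
  intro h
  have f0 : ∀ z, 0 < ‖f z‖ := fun z => norm_pos_iff.2 (exp_ne_zero _)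
  have e : ∀ (T : Finset ι) (z : ℂ), ∏ i ∈ (Finset.univ : Finset (Fin k)).disjSum T, ‖mb (Sum.elim (fun _ => 0) b i) z‖ =
      ‖z‖ ^ k * ∏ i ∈ T, ‖mb (b i) z‖ := fun T z => by
    have : mb 0 z = z := by simp [mb]
    simp [Finset.prod_disjSum, this]
  have k1 : ∀ z ∈ ball (0 : ℂ) 1, ‖Bp a z‖ ≤ ‖z‖ ^ k * ‖Bp b z‖ := fun z hz =>
    ge_of_tendsto' ((hb.lim hz).const_mul _) fun T => by
      rw [← e]
      refine blas2 _ (by rintro (i | i); exacts [by simp, hb.lt i]) (fun z => ‖c‖ / ‖f z‖)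
        (continuousOn_const.div f_d.continuousOn.norm fun z _ => (f0 z).ne') _ _ a_seq.bl (fun z hz => ?_) z hz
      have := congrArg norm (h z hz)
      rw [g, norm_mul, norm_mul, norm_mul, norm_pow] at this
      rw [e, div_mul_eq_mul_div, le_div_iff₀ (f0 z), mul_comm, this]
      gcongr; exact hb.le hz T
  have k2 : ∀ t : ℝ, 1 ≤ t → c ≠ 0 ∧ ‖c‖ ≤ Real.exp (-t) := fun t ht => by
    have hw : 0 < (t * I : ℂ).im := by simp; linarith
    have m := mem_ball_zero_iff.2 (cay_lt hw)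
    have n := norm_pos_iff.2 (a_seq.ne_zero m fun i e => by
      have h1 := mb_cay hw (pos_pos (.inr i))
      rw [e, a, mb, sub_self, zero_div, norm_zero, eq_comm, zero_pow two_ne_zero, div_eq_zero_iff] at h1
      have p := pos_pos (.inr i)
      have : (pos (.inr i)).im < 1 := by
        rw [pos_im]; exact zpow_lt_one_of_neg₀ (by norm_num) (by simp only [E]; omega)
      simp only [mul_im, ofReal_re, I_im, mul_one, ofReal_im, I_re, mul_zero, add_zero] at h1
      rcases h1 with h1 | h1 <;> nlinarith [sq_nonneg ((pos (.inr i)).re - (t * I : ℂ).re)])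
    have := congrArg norm (h _ m)
    rw [g, norm_mul, norm_mul, norm_mul, norm_pow] at this
    refine ⟨fun e => ?_, le_of_mul_le_mul_right ?_ n⟩
    · rw [e, norm_zero, zero_mul] at this
      exact (mul_pos (f0 _) n).ne' this
    · rw [f_cay hw, S_norm] at this
      simp only [mul_im, ofReal_re, I_im, mul_one, ofReal_im, I_re, mul_zero, add_zero] at this
      rw [this]; exact mul_le_mul_of_nonneg_left (k1 _ m) (norm_nonneg _)
  exact (k2 1 le_rfl).1 (norm_le_zero_iff.1 (ge_of_tendsto Real.tendsto_exp_neg_atTop_nhds_zero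
    ((eventually_ge_atTop 1).mono fun t ht => (k2 t ht).2)))

end Pool.Agent.H.MP_e1108f_an
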